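import Pool.Agent.W187.WQ.AllS

/-! WQ-CHEBL: Chebyshev bound for the prime terms. -/

set_option autoImplicit false

open MeasureTheory Set Chebyshev

namespace Pool.Agent.W12.WQ

open Pool.Agent.W187.WQ

theorem psi_succ (N : ℕ) : psi ((N + 1 : ℕ) : ℝ) = psi (N : ℝ) + ArithmeticFunction.vonMangoldt (N + 1) := by
  rw [psi, psi, Nat.floor_natCast, Nat.floor_natCast, Finset.sum_Ioc_succ_top (Nat.zero_le N)]

theorem step (N : ℕ) (hN : 1 ≤ N) :
    psi (N : ℝ) * (1 / Real.sqrt N - 1 / Real.sqrt ((N : ℝ) + 1)) ≤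
      Real.log 4 * (Real.sqrt ((N : ℝ) + 1) - Real.sqrt N) +
        1 / 2 * (Real.log ((N : ℝ) + 1) ^ 2 - Real.log N ^ 2) := by
  have hN1 : (1 : ℝ) ≤ N := by exact_mod_cast hN
  obtain ⟨s, hs⟩ : ∃ s, s = Real.sqrt (N : ℝ) := ⟨_, rfl⟩
  obtain ⟨t, ht⟩ : ∃ t, t = Real.sqrt ((N : ℝ) + 1) := ⟨_, rfl⟩
  have hs0 : 0 < s := by rw [hs]; exact Real.sqrt_pos.mpr (by linarith)
  have ht0 : 0 < t := by rw [ht]; exact Real.sqrt_pos.mpr (by linarith)
  have hst : s ≤ t := by rw [hs, ht]; exact Real.sqrt_le_sqrt (by linarith)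
  have hs2 : s ^ 2 = N := by rw [hs]; exact Real.sq_sqrt (by linarith)
  have ht2 : t ^ 2 = (N : ℝ) + 1 := by rw [ht]; exact Real.sq_sqrt (by linarith)
  have hpsi := psi_le hN1
  have hlog0 : 0 ≤ Real.log N := Real.log_nonneg hN1
  have hlogm : Real.log N ≤ Real.log ((N : ℝ) + 1) := Real.log_le_log (by linarith) (by linarith)
  have hl : 2 * (1 - s / t) ≤ Real.log ((N : ℝ) + 1) - Real.log N := by
    rw [← ht2, ← hs2, Real.log_pow, Real.log_pow]
    have h1 := Real.log_le_sub_one_of_pos (show 0 < s / t by positivity)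
    rw [Real.log_div hs0.ne' ht0.ne'] at h1
    push_cast
    linarith
  have hfrac : 0 ≤ 1 - s / t := by
    rw [sub_nonneg, div_le_one ht0]
    exact hst
  rw [← hs, ← ht]
  have hd : 0 ≤ 1 / s - 1 / t := by
    rw [sub_nonneg]
    exact one_div_le_one_div_of_le hs0 hst
  have h4 : 0 ≤ Real.log 4 := Real.log_nonneg (by norm_num)
  calc psi (N : ℝ) * (1 / s - 1 / t)
      ≤ (Real.log 4 * N + 2 * s * Real.log N) * (1 / s - 1 / t) := by
        apply mul_le_mul_of_nonneg_right _ hd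
        rw [hs]
        exact hpsi
    _ = Real.log 4 * ((t - s) * (s / t)) + 2 * (1 - s / t) * Real.log N := by
        rw [← hs2]
        field_simp
    _ ≤ Real.log 4 * (t - s) + 1 / 2 * (Real.log ((N : ℝ) + 1) ^ 2 - Real.log N ^ 2) := by
        apply add_le_add
        · apply mul_le_mul_of_nonneg_left _ h4
          have h5 : s / t ≤ 1 := by linarith
          have h6 : 0 ≤ t - s := by linarith
          nlinarith
        · have h7 : 2 * (1 - s / t) * Real.log N ≤
              (Real.log ((N : ℝ) + 1) - Real.log N) * Real.log N :=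
            mul_le_mul_of_nonneg_right hl hlog0
          nlinarith

theorem sum_bound (N : ℕ) (hN : 1 ≤ N) :
    ∑ n ∈ Finset.range (N + 1), ArithmeticFunction.vonMangoldt n / Real.sqrt n ≤
      psi (N : ℝ) / Real.sqrt N + Real.log 4 * (Real.sqrt N - 1) + 1 / 2 * Real.log N ^ 2 := by
  induction N, hN using Nat.le_induction with
  | base =>
    rw [Finset.sum_range_succ, Finset.sum_range_one]
    simp
  | succ N hN ih =>
    rw [Finset.sum_range_succ]
    have h1 := step N hN
    have h2 := psi_succ N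
    have e : ((N + 1 : ℕ) : ℝ) = (N : ℝ) + 1 := by push_cast; rfl
    rw [h2, e]
    have e2 : (psi (N : ℝ) + ArithmeticFunction.vonMangoldt (N + 1)) / Real.sqrt ((N : ℝ) + 1) =
        psi (N : ℝ) * (1 / Real.sqrt ((N : ℝ) + 1)) +
          ArithmeticFunction.vonMangoldt (N + 1) / Real.sqrt ((N : ℝ) + 1) := by ring
    rw [e2]
    have e3 : psi (N : ℝ) / Real.sqrt N = psi (N : ℝ) * (1 / Real.sqrt N) := by ring
    rw [e3] at ih
    nlinarith

theorem chebl : S_CHEBL := by
  intro L hL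
  have h5 : (5 : ℝ) ≤ Real.exp L := by
    calc (5 : ℝ) = Real.exp (Real.log 5) := (Real.exp_log (by norm_num)).symm
      _ ≤ Real.exp L := Real.exp_le_exp.mpr hL
  have hL0 : 0 < L := lt_of_lt_of_le (Real.log_pos (by norm_num)) hL
  obtain ⟨N, hNe⟩ : ∃ N, N = ⌊Real.exp L⌋₊ := ⟨_, rfl⟩
  have hN1 : 1 ≤ N := by
    rw [hNe]
    apply Nat.le_floor
    push_cast
    linarith
  have hN1' : (1 : ℝ) ≤ N := by exact_mod_cast hN1
  have hNX : (N : ℝ) ≤ Real.exp L := by rw [hNe]; exact Nat.floor_le (by linarith)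
  obtain ⟨u, hu⟩ : ∃ u, u = Real.exp (L / 2) := ⟨_, rfl⟩
  have hu0 : 0 < u := by rw [hu]; exact Real.exp_pos _
  have hu2 : u ^ 2 = Real.exp L := by
    rw [hu, ← Real.exp_nat_mul]
    congr 1
    push_cast
    ring
  have hsN : Real.sqrt N ≤ u := by
    rw [Real.sqrt_le_left hu0.le, hu2]
    exact hNX
  have hsN0 : 0 < Real.sqrt N := Real.sqrt_pos.mpr (by linarith)
  have hlN : Real.log N ≤ L := by
    rw [Real.log_le_iff_le_exp (by linarith)]
    exact hNX
  have hlN0 : 0 ≤ Real.log N := Real.log_nonneg hN1'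
  have hS := sum_bound N hN1
  have hpsi : psi (N : ℝ) / Real.sqrt N ≤ Real.log 4 * Real.sqrt N + 2 * Real.log N := by
    rw [div_le_iff₀ hsN0]
    refine (psi_le hN1').trans (le_of_eq ?_)
    have : Real.sqrt N * Real.sqrt N = N := Real.mul_self_sqrt (by linarith)
    linear_combination (-Real.log 4) * this
  have h4 : Real.log 4 = 2 * Real.log 2 := by
    rw [show (4 : ℝ) = 2 ^ 2 by norm_num, Real.log_pow]
    norm_num
  have hl2a := Real.log_two_gt_d9
  have hl2b := Real.log_two_lt_d9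
  have hsum : ∑ n ∈ Finset.range (⌊Real.exp L⌋₊ + 1),
      2 * (ArithmeticFunction.vonMangoldt n / Real.sqrt n) ≤
      4 * Real.log 4 * u + 4 * L + L ^ 2 - 2 * Real.log 4 := by
    rw [← hNe, ← Finset.mul_sum]
    have h6 : Real.log N ^ 2 ≤ L ^ 2 := pow_le_pow_left₀ hlN0 hlN 2
    have h7 : Real.log 4 * Real.sqrt N ≤ Real.log 4 * u := by
      apply mul_le_mul_of_nonneg_left hsN
      rw [h4]
      linarith
    linarith
  have hlogpi : Real.log (Real.pi * L) ≤ 3.15 * L / 8 - 1 + 3 * Real.log 2 := by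
    have e : Real.pi * L = (2 * 2 * 2) * (Real.pi * L / 8) := by ring
    have hp := Real.pi_pos
    rw [e, Real.log_mul (by norm_num) (by positivity), Real.log_mul (by norm_num) (by norm_num),
      Real.log_mul (by norm_num) (by norm_num)]
    have h8 := Real.log_le_sub_one_of_pos (show 0 < Real.pi * L / 8 by positivity)
    have h9 := Real.pi_lt_d2
    have h10 : Real.pi * L ≤ 3.15 * L := mul_le_mul_of_nonneg_right h9.le hL0.le
    linarith
  have hgam := Real.eulerMascheroniConstant_lt_two_thirds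
  have htay : 1 + L / 2 + (L / 2) ^ 2 / 2 + (L / 2) ^ 3 / 6 ≤ u := by
    have := Real.sum_le_exp_of_nonneg (show 0 ≤ L / 2 by linarith) 4
    rw [← hu] at this
    simp only [Finset.sum_range_succ, Finset.sum_range_zero, Nat.factorial] at this
    norm_num at this
    linarith
  rw [← hu]
  have hfin : L ^ 2 + 4.894 * L ≤ 6.45 * u := by
    have h11 : L ^ 2 + 4.894 * L ≤ 6.45 * (1 + L / 2 + (L / 2) ^ 2 / 2 + (L / 2) ^ 3 / 6) := by
      nlinarith [sq_nonneg (L - 2.566), mul_nonneg hL0.le (sq_nonneg (L - 2.566))]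
    linarith
  nlinarith

end Pool.Agent.W12.WQ
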