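import Pool.Agent.W187.WQ.AllS
import Pool.Agent.W15.WP.QQ

/-! WQ-COER: coercivity of the Weil form in finite codimension, all lengths. -/

set_option autoImplicit false

open MeasureTheory Set Pool.Agent.W187.WP Pool.Agent.W187.WQ Pool.Agent.W15.WP

namespace Pool.Agent.W12.WQ

theorem ker_bd {y : ℝ} (hy : 0 < y) : |Real.exp (y / 2) / Real.sinh y - 1 / y| ≤ 1 / 2 := by
  obtain ⟨z, hz⟩ : ∃ z, z = y / 2 := ⟨_, rfl⟩
  have hyz : y = 2 * z := by rw [hz]; ring
  have hz0 : 0 < z := by rw [hz]; linarith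
  have hs : 0 < Real.sinh y := Real.sinh_pos_iff.2 hy
  have hsz : z ≤ Real.sinh z := Real.self_le_sinh_iff.2 hz0.le
  have hcz : 1 ≤ Real.cosh z := Real.one_le_cosh z
  have hE : Real.exp z = Real.cosh z + Real.sinh z := by rw [Real.cosh_eq, Real.sinh_eq]; ring
  have h2 : Real.sinh y = 2 * Real.sinh z * Real.cosh z := by rw [hyz, Real.sinh_two_mul]
  -- upper bound
  have hup : y * Real.exp (y / 2) ≤ Real.sinh y * (1 + y / 2) := by
    rw [← hz, h2, hyz, hE]
    have a1 : z * Real.cosh z ≤ Real.sinh z * Real.cosh z :=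
      mul_le_mul_of_nonneg_right hsz (by linarith)
    have a2 : z * Real.sinh z * 1 ≤ z * Real.sinh z * Real.cosh z :=
      mul_le_mul_of_nonneg_left hcz (mul_nonneg hz0.le (by linarith))
    nlinarith
  -- lower bound
  have hlow : Real.sinh y * (1 - y / 2) ≤ y * Real.exp (y / 2) := by
    rw [← hz]
    have e1 : 1 - z ≤ Real.exp (-z) := by
      have := Real.add_one_le_exp (-z)
      linarith
    have e2 : Real.sinh y * (1 - z) ≤ Real.sinh y * Real.exp (-z) :=
      mul_le_mul_of_nonneg_left e1 hs.le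
    refine e2.trans ?_
    have e3 : Real.sinh y * Real.exp (-z) = Real.exp z * (1 - Real.exp (-(4 * z))) / 2 := by
      rw [Real.sinh_eq, hyz]
      have b1 : Real.exp (2 * z) = Real.exp z * Real.exp z := by rw [← Real.exp_add]; ring_nf
      have b2 : Real.exp (-(2 * z)) = Real.exp (-z) * Real.exp (-z) := by
        rw [← Real.exp_add]; ring_nf
      have b3 : Real.exp (-(4 * z)) = Real.exp (-z) * Real.exp (-z) * (Real.exp (-z) * Real.exp (-z)) := by
        rw [← Real.exp_add, ← Real.exp_add]; ring_nf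
      have b4 : Real.exp z * Real.exp (-z) = 1 := by rw [← Real.exp_add, add_neg_cancel, Real.exp_zero]
      rw [b1, b2, b3]
      linear_combination (1 / 2 * Real.exp z - 1 / 2 * (Real.exp (-z)) ^ 3 * (-1)) * b4
    rw [e3]
    have e4 : 1 - Real.exp (-(4 * z)) ≤ 4 * z := by
      have := Real.add_one_le_exp (-(4 * z))
      linarith
    have e5 := mul_le_mul_of_nonneg_left e4 (Real.exp_pos z).le
    rw [hyz]
    linarith
  rw [abs_le]
  constructor
  · rw [neg_le_sub_iff_le_add, div_add' _ _ _ hs.ne', div_le_div_iff₀ hy hs]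
    nlinarith
  · rw [sub_le_iff_le_add, div_le_iff₀ hs]
    have : (1 / 2 + 1 / y) * Real.sinh y = (Real.sinh y * (1 + y / 2)) / y := by
      field_simp
      ring
    rw [this, le_div_iff₀ hy]
    linarith

theorem sinh_int {a : ℝ} (ha : 0 < a) :
    ∫ x in (-1 : ℝ)..1, Real.sinh (a * x / 2) ^ 2 = Real.sinh a / a - 1 := by
  have hd : ∀ x ∈ uIcc (-1 : ℝ) 1, HasDerivAt (fun x => Real.sinh (a * x) / (2 * a) - x / 2)
      (Real.sinh (a * x / 2) ^ 2) x := by
    intro x _
    have h1 : HasDerivAt (fun x : ℝ => a * x) a x := by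
      simpa using (hasDerivAt_id x).const_mul a
    have h2 := (h1.sinh.div_const (2 * a)).sub ((hasDerivAt_id x).div_const 2)
    have h3 : Real.cosh (a * x) = Real.cosh (a * x / 2) ^ 2 + Real.sinh (a * x / 2) ^ 2 := by
      rw [← Real.cosh_two_mul]
      congr 1
      ring
    have h4 := Real.cosh_sq (a * x / 2)
    have h5 : Real.cosh (a * x) * a / (2 * a) - 1 / 2 = Real.sinh (a * x / 2) ^ 2 := by
      rw [h3, h4]
      field_simp
      ring
    exact h2.congr_deriv h5
  rw [intervalIntegral.integral_eq_sub_of_hasDerivAt hd]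
  · have h1 : Real.sinh (a * -1) = - Real.sinh a := by rw [mul_neg_one, Real.sinh_neg]
    rw [h1, mul_one]
    field_simp
    ring
  · apply Continuous.intervalIntegrable
    exact (Real.continuous_sinh.comp (by fun_prop)).pow 2

theorem cs {h s : ℝ → ℝ} (hh : Continuous h) (hs : Continuous s) :
    (∫ x in (-1 : ℝ)..1, h x * s x) ^ 2 ≤
      (∫ x in (-1 : ℝ)..1, h x ^ 2) * (∫ x in (-1 : ℝ)..1, s x ^ 2) := by
  have h1 : ∀ t : ℝ, 0 ≤ (∫ x in (-1 : ℝ)..1, s x ^ 2) * (t * t) +
      (2 * ∫ x in (-1 : ℝ)..1, h x * s x) * t + ∫ x in (-1 : ℝ)..1, h x ^ 2 := by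
    intro t
    have h2 : 0 ≤ ∫ x in (-1 : ℝ)..1, (h x + t * s x) ^ 2 :=
      intervalIntegral.integral_nonneg (by norm_num) (fun x _ => sq_nonneg _)
    have h3 : ∫ x in (-1 : ℝ)..1, (h x + t * s x) ^ 2 = (∫ x in (-1 : ℝ)..1, s x ^ 2) * (t * t) +
      (2 * ∫ x in (-1 : ℝ)..1, h x * s x) * t + ∫ x in (-1 : ℝ)..1, h x ^ 2 := by
      have e : ∀ x, (h x + t * s x) ^ 2 = (t * t) * s x ^ 2 + (2 * t) * (h x * s x) + h x ^ 2 := by
        intro x; ring
      simp only [e]
      rw [intervalIntegral.integral_add, intervalIntegral.integral_add,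
        intervalIntegral.integral_const_mul, intervalIntegral.integral_const_mul]
      · ring
      · apply Continuous.intervalIntegrable; fun_prop
      · apply Continuous.intervalIntegrable; fun_prop
      · apply Continuous.intervalIntegrable; fun_prop
      · apply Continuous.intervalIntegrable; fun_prop
    rw [← h3]
    exact h2
  have h4 := discrim_le_zero h1
  unfold discrim at h4
  nlinarith

theorem coer : S_ENg → S_TK → S_COER := by
  intro hEN hTK M D a h ha0 hC2 hz hD hort
  have h1 : ContDiff ℝ 1 h := hC2.of_le (by norm_num)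
  have hc : Continuous h := h1.continuous
  have hEN' := hEN 0 h h1 hz
  have hn0 := GG_nonneg hc hz
  have hG0 := GG_zero hz
  have hGle := GG_le hc hz
  have hGc := GG_cont hc hz
  obtain ⟨B, hB⟩ := GG_lip h1 hz
  set n := ∫ x in (-1 : ℝ)..1, h x ^ 2 with hn
  rw [hG0] at hn0 hGle
  -- Tuck
  have hT : Real.log D * n ≤ 1 / 2 * EE h := by
    obtain ⟨K, rfl⟩ : ∃ K, D = K + 1 := ⟨D - 1, by omega⟩
    have h2 := hTK K h h1 (fun k hk => hort k (by omega))
    rw [← hn] at h2
    refine le_trans (mul_le_mul_of_nonneg_right ?_ hn0) h2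
    have h3 := log_add_one_le_harmonic (K + 1)
    have h4 : ((harmonic (K + 1) : ℚ) : ℝ) = ∑ i ∈ Finset.range (K + 1), (1 : ℝ) / (i + 1) := by
      rw [harmonic]
      push_cast
      simp only [one_div]
    rw [← h4]
    refine le_trans (Real.log_le_log ?_ ?_) h3
    · exact_mod_cast Nat.succ_pos K
    · push_cast; linarith
  -- the kernel
  set K : ℝ → ℝ := fun s => a * Real.exp (a * s / 2) / Real.sinh (a * s) - 1 / s with hK
  have hsne : ∀ s ∈ Ioc (0 : ℝ) 2, Real.sinh (a * s) ≠ 0 := by
    intro s hs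
    have : 0 < Real.sinh (a * s) := Real.sinh_pos_iff.2 (mul_pos ha0 hs.1)
    exact this.ne'
  have hKc : ContinuousOn K (Ioc 0 2) := by
    apply ContinuousOn.sub
    · apply ContinuousOn.div
      · apply Continuous.continuousOn; fun_prop
      · apply Continuous.continuousOn
        exact Real.continuous_sinh.comp (by fun_prop)
      · exact hsne
    · apply ContinuousOn.div continuousOn_const continuousOn_id
      intro s hs
      exact hs.1.ne'
  have hKb : ∀ s ∈ Ioc (0 : ℝ) 2, |K s| ≤ a / 2 := by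
    intro s hs
    have hs0 := hs.1
    have hy : 0 < a * s := mul_pos ha0 hs0
    have e : K s = a * (Real.exp (a * s / 2) / Real.sinh (a * s) - 1 / (a * s)) := by
      rw [hK]
      simp only
      rw [mul_sub, mul_div_assoc]
      congr 1
      field_simp
    rw [e, abs_mul, abs_of_pos ha0]
    have := mul_le_mul_of_nonneg_left (ker_bd hy) ha0.le
    linarith
  have hii1 : IntervalIntegrable (fun s => (GG h 0 - GG h s) / s) volume 0 2 := by
    apply ii_bdd (B := B)
    · apply ContinuousOn.div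
      · apply Continuous.continuousOn; fun_prop
      · exact continuousOn_id
      · intro s hs; exact hs.1.ne'
    · intro s hs; exact hB s hs.1
  have hii2 : IntervalIntegrable (fun s => K s * GG h s) volume 0 2 := by
    apply ii_bdd (B := (a / 2) * n)
    · exact hKc.mul hGc.continuousOn
    · intro s hs
      rw [abs_mul]
      exact mul_le_mul (hKb s hs) (hGle s) (abs_nonneg _) (by linarith)
  have hsplit : (∫ s in (0 : ℝ)..2, (GG h 0 / s - a * Real.exp (a * s / 2) / Real.sinh (a * s) * GG h s))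
      = (∫ s in (0 : ℝ)..2, (GG h 0 - GG h s) / s) - ∫ s in (0 : ℝ)..2, K s * GG h s := by
    rw [← intervalIntegral.integral_sub hii1 hii2]
    congr 1
    ext s
    rw [hK]
    ring
  have hP : |∫ s in (0 : ℝ)..2, K s * GG h s| ≤ a * n := by
    have := intervalIntegral.norm_integral_le_of_norm_le_const (a := (0 : ℝ)) (b := 2)
      (C := (a / 2) * n) (f := fun s => K s * GG h s) (by
        intro s hs
        rw [uIoc_of_le (by norm_num)] at hs
        rw [norm_mul, Real.norm_eq_abs, Real.norm_eq_abs]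
        exact mul_le_mul (hKb s hs) (hGle s) (abs_nonneg _) (by linarith))
    rw [Real.norm_eq_abs] at this
    calc _ ≤ _ := this
      _ = _ := by norm_num; ring
  have hEU : (∫ x in (-1 : ℝ)..1, (Real.log 2 + Umm 0 x) * h x ^ 2) = Real.log 2 * n := by
    rw [hn, ← intervalIntegral.integral_const_mul]
    congr 1; ext x; simp [Umm]
  -- primes
  have hprimes : (∑ k ∈ Finset.range (M + 1),
      2 * (ArithmeticFunction.vonMangoldt k / Real.sqrt k) * GG h (Real.log k / a)) ≤
      (∑ k ∈ Finset.range (M + 1), 2 * (ArithmeticFunction.vonMangoldt k / Real.sqrt k)) * n := by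
    rw [Finset.sum_mul]
    apply Finset.sum_le_sum
    intro k _
    apply mul_le_mul_of_nonneg_left ((le_abs_self _).trans (hGle _))
    have := ArithmeticFunction.vonMangoldt_nonneg (n := k)
    positivity
  -- sinh term
  have hsc : Continuous (fun x : ℝ => Real.sinh (a * x / 2)) :=
    Real.continuous_sinh.comp (by fun_prop)
  have hS : 2 * a * (∫ x in (-1 : ℝ)..1, h x * Real.sinh (a * x / 2)) ^ 2 ≤ Real.exp a * n := by
    have h2 := cs hc hsc
    rw [← hn, sinh_int ha0] at h2
    have h3 : 2 * a * (Real.sinh a / a - 1) ≤ Real.exp a := by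
      have e : 2 * a * (Real.sinh a / a - 1) = 2 * Real.sinh a - 2 * a := by field_simp
      rw [e, Real.sinh_eq]
      have := Real.exp_pos (-a)
      linarith
    calc 2 * a * (∫ x in (-1 : ℝ)..1, h x * Real.sinh (a * x / 2)) ^ 2
        ≤ 2 * a * (n * (Real.sinh a / a - 1)) := mul_le_mul_of_nonneg_left h2 (by linarith)
      _ = (2 * a * (Real.sinh a / a - 1)) * n := by ring
      _ ≤ Real.exp a * n := mul_le_mul_of_nonneg_right h3 hn0
  have hC : 0 ≤ 2 * a * (∫ x in (-1 : ℝ)..1, h x * Real.cosh (a * x / 2)) ^ 2 := by positivity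
  unfold QN
  rw [hsplit, hG0]
  rw [hG0, hEU] at hEN'
  have hlog : Real.log (4 * Real.pi * a) = Real.log 2 + Real.log (2 * Real.pi * a) := by
    have hp := Real.pi_pos
    rw [← Real.log_mul (by norm_num) (by positivity)]
    congr 1
    ring
  rw [hlog]
  have hP' := (abs_le.1 hP).2
  have k8 : 2 * a * ((∫ x in (-1 : ℝ)..1, h x * Real.cosh (a * x / 2)) ^ 2 -
      (∫ x in (-1 : ℝ)..1, h x * Real.sinh (a * x / 2)) ^ 2) =
      2 * a * (∫ x in (-1 : ℝ)..1, h x * Real.cosh (a * x / 2)) ^ 2 -
      2 * a * (∫ x in (-1 : ℝ)..1, h x * Real.sinh (a * x / 2)) ^ 2 := by ring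
  rw [k8]
  have k9 : (Real.log D - (Real.eulerMascheroniConstant + Real.log (2 * Real.pi * a) + a +
      Real.exp a + ∑ k ∈ Finset.range (M + 1), 2 * (ArithmeticFunction.vonMangoldt k / Real.sqrt k))) *
      n = Real.log D * n - Real.eulerMascheroniConstant * n - Real.log (2 * Real.pi * a) * n - a * n -
      Real.exp a * n - (∑ k ∈ Finset.range (M + 1),
        2 * (ArithmeticFunction.vonMangoldt k / Real.sqrt k)) * n := by ring
  rw [k9]
  linarith

end Pool.Agent.W12.WQ
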