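import Pool.Agent.W12.WQ.Coer
import Pool.Agent.W187.WQ.BotS0

/-! WQ-COER0: lower bound of the Weil form without orthogonality conditions. -/

set_option autoImplicit false

open MeasureTheory Set Pool.Agent.W187.WP Pool.Agent.W187.WQ Pool.Agent.W15.WP

namespace Pool.Agent.W12.WQ

theorem coer0 : S_ENg → S_COER0 := by
  intro hEN M a h ha0 hC2 hz
  have h1 : ContDiff ℝ 1 h := hC2.of_le (by norm_num)
  have hc : Continuous h := h1.continuous
  have hEN' := hEN 0 h h1 hz
  have hn0 := GG_nonneg hc hz
  have hG0 := GG_zero hz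
  have hGle := GG_le hc hz
  have hGc := GG_cont hc hz
  obtain ⟨B, hB⟩ := GG_lip h1 hz
  set n := ∫ x in (-1 : ℝ)..1, h x ^ 2 with hn
  rw [hG0] at hn0 hGle
  have hT : 0 ≤ 1 / 2 * EE h := by
    have h3 : 0 ≤ EE h := by
      unfold EE
      refine intervalIntegral.integral_nonneg (by norm_num) fun x hx => ?_
      exact intervalIntegral.integral_nonneg hx.2
        fun y hy => div_nonneg (sq_nonneg _) (sub_nonneg.mpr hy.1)
    linarith
  -- the kernel
  set K : ℝ → ℝ := fun s => a * Real.exp (a * s / 2) / Real.sinh (a * s) - 1 / s with hK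
  have hsne : ∀ s ∈ Ioc (0 : ℝ) 2, Real.sinh (a * s) ≠ 0 := by
    intro s hs
    have : 0 < Real.sinh (a * s) := Real.sinh_pos_iff.2 (mul_pos ha0 hs.1)
    exact this.ne'
  have hKc : ContinuousOn K (Ioc 0 2) := by
    apply ContinuousOn.sub
    · apply ContinuousOn.div
      · apply Continuous.continuousOn; fun_prop
      · apply Continuous.continuousOn
        exact Real.continuous_sinh.comp (by fun_prop)
      · exact hsne
    · apply ContinuousOn.div continuousOn_const continuousOn_id
      intro s hs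
      exact hs.1.ne'
  have hKb : ∀ s ∈ Ioc (0 : ℝ) 2, |K s| ≤ a / 2 := by
    intro s hs
    have hs0 := hs.1
    have hy : 0 < a * s := mul_pos ha0 hs0
    have e : K s = a * (Real.exp (a * s / 2) / Real.sinh (a * s) - 1 / (a * s)) := by
      rw [hK]
      simp only
      rw [mul_sub, mul_div_assoc]
      congr 1
      field_simp
    rw [e, abs_mul, abs_of_pos ha0]
    have := mul_le_mul_of_nonneg_left (ker_bd hy) ha0.le
    linarith
  have hii1 : IntervalIntegrable (fun s => (GG h 0 - GG h s) / s) volume 0 2 := by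
    apply ii_bdd (B := B)
    · apply ContinuousOn.div
      · apply Continuous.continuousOn; fun_prop
      · exact continuousOn_id
      · intro s hs; exact hs.1.ne'
    · intro s hs; exact hB s hs.1
  have hii2 : IntervalIntegrable (fun s => K s * GG h s) volume 0 2 := by
    apply ii_bdd (B := (a / 2) * n)
    · exact hKc.mul hGc.continuousOn
    · intro s hs
      rw [abs_mul]
      exact mul_le_mul (hKb s hs) (hGle s) (abs_nonneg _) (by linarith)
  have hsplit : (∫ s in (0 : ℝ)..2, (GG h 0 / s - a * Real.exp (a * s / 2) / Real.sinh (a * s) * GG h s))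
      = (∫ s in (0 : ℝ)..2, (GG h 0 - GG h s) / s) - ∫ s in (0 : ℝ)..2, K s * GG h s := by
    rw [← intervalIntegral.integral_sub hii1 hii2]
    congr 1
    ext s
    rw [hK]
    ring
  have hP : |∫ s in (0 : ℝ)..2, K s * GG h s| ≤ a * n := by
    have := intervalIntegral.norm_integral_le_of_norm_le_const (a := (0 : ℝ)) (b := 2)
      (C := (a / 2) * n) (f := fun s => K s * GG h s) (by
        intro s hs
        rw [uIoc_of_le (by norm_num)] at hs
        rw [norm_mul, Real.norm_eq_abs, Real.norm_eq_abs]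
        exact mul_le_mul (hKb s hs) (hGle s) (abs_nonneg _) (by linarith))
    rw [Real.norm_eq_abs] at this
    calc _ ≤ _ := this
      _ = _ := by norm_num; ring
  have hEU : (∫ x in (-1 : ℝ)..1, (Real.log 2 + Umm 0 x) * h x ^ 2) = Real.log 2 * n := by
    rw [hn, ← intervalIntegral.integral_const_mul]
    congr 1; ext x; simp [Umm]
  -- primes
  have hprimes : (∑ k ∈ Finset.range (M + 1),
      2 * (ArithmeticFunction.vonMangoldt k / Real.sqrt k) * GG h (Real.log k / a)) ≤
      (∑ k ∈ Finset.range (M + 1), 2 * (ArithmeticFunction.vonMangoldt k / Real.sqrt k)) * n := by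
    rw [Finset.sum_mul]
    apply Finset.sum_le_sum
    intro k _
    apply mul_le_mul_of_nonneg_left ((le_abs_self _).trans (hGle _))
    have := ArithmeticFunction.vonMangoldt_nonneg (n := k)
    positivity
  -- sinh term
  have hsc : Continuous (fun x : ℝ => Real.sinh (a * x / 2)) :=
    Real.continuous_sinh.comp (by fun_prop)
  have hS : 2 * a * (∫ x in (-1 : ℝ)..1, h x * Real.sinh (a * x / 2)) ^ 2 ≤ Real.exp a * n := by
    have h2 := cs hc hsc
    rw [← hn, sinh_int ha0] at h2
    have h3 : 2 * a * (Real.sinh a / a - 1) ≤ Real.exp a := by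
      have e : 2 * a * (Real.sinh a / a - 1) = 2 * Real.sinh a - 2 * a := by field_simp
      rw [e, Real.sinh_eq]
      have := Real.exp_pos (-a)
      linarith
    calc 2 * a * (∫ x in (-1 : ℝ)..1, h x * Real.sinh (a * x / 2)) ^ 2
        ≤ 2 * a * (n * (Real.sinh a / a - 1)) := mul_le_mul_of_nonneg_left h2 (by linarith)
      _ = (2 * a * (Real.sinh a / a - 1)) * n := by ring
      _ ≤ Real.exp a * n := mul_le_mul_of_nonneg_right h3 hn0
  have hC : 0 ≤ 2 * a * (∫ x in (-1 : ℝ)..1, h x * Real.cosh (a * x / 2)) ^ 2 := by positivity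
  unfold QN
  rw [hsplit, hG0]
  rw [hG0, hEU] at hEN'
  have hlog : Real.log (4 * Real.pi * a) = Real.log 2 + Real.log (2 * Real.pi * a) := by
    have hp := Real.pi_pos
    rw [← Real.log_mul (by norm_num) (by positivity)]
    congr 1
    ring
  rw [hlog]
  have hP' := (abs_le.1 hP).2
  have k8 : 2 * a * ((∫ x in (-1 : ℝ)..1, h x * Real.cosh (a * x / 2)) ^ 2 -
      (∫ x in (-1 : ℝ)..1, h x * Real.sinh (a * x / 2)) ^ 2) =
      2 * a * (∫ x in (-1 : ℝ)..1, h x * Real.cosh (a * x / 2)) ^ 2 -
      2 * a * (∫ x in (-1 : ℝ)..1, h x * Real.sinh (a * x / 2)) ^ 2 := by ring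
  rw [k8]
  have k9 : -(Real.eulerMascheroniConstant + Real.log (2 * Real.pi * a) + a +
      Real.exp a + ∑ k ∈ Finset.range (M + 1), 2 * (ArithmeticFunction.vonMangoldt k / Real.sqrt k)) *
      n = - Real.eulerMascheroniConstant * n - Real.log (2 * Real.pi * a) * n - a * n -
      Real.exp a * n - (∑ k ∈ Finset.range (M + 1),
        2 * (ArithmeticFunction.vonMangoldt k / Real.sqrt k)) * n := by ring
  rw [k9]
  linarith

end Pool.Agent.W12.WQ
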