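import Mathlib
import Pool.Agent.W187.WQ.Fx

set_option autoImplicit false

open MeasureTheory Set
open Pool.Agent.W187.WP Pool.Agent.W187.WQ

namespace Pool.Agent.W12.WQ

lemma cont_Umm (m : ℕ) : Continuous (Umm m) := by
  unfold Umm
  fun_prop

lemma ui1 (e j : ℕ) : ∫ x in (0 : ℝ)..1, x ^ (2 * (e + j)) = mu e j := by
  rw [integral_pow]
  unfold mu
  simp

lemma split_U (n m : ℕ) (g : ℝ → ℝ) (hg : Continuous g) :
    ∫ x in (0 : ℝ)..1, x ^ n * Umm m x * g x =
      ∑ i ∈ Finset.range m, (∫ x in (0 : ℝ)..1, x ^ (n + 2 * (i + 1)) * g x) /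
        (2 * ((i : ℝ) + 1)) := by
  have h1 : ∀ x : ℝ, x ^ n * Umm m x * g x =
      ∑ i ∈ Finset.range m, x ^ (n + 2 * (i + 1)) * g x / (2 * ((i : ℝ) + 1)) := by
    intro x
    unfold Umm
    rw [Finset.mul_sum, Finset.sum_mul]
    refine Finset.sum_congr rfl fun i _ => ?_
    rw [pow_add]
    ring
  simp_rw [h1]
  rw [intervalIntegral.integral_finsetSum]
  · refine Finset.sum_congr rfl fun i _ => ?_
    rw [intervalIntegral.integral_div]
  · intro i _
    apply Continuous.intervalIntegrable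
    fun_prop

lemma ui2 (e m j : ℕ) : ∫ x in (0 : ℝ)..1, x ^ (2 * (e + j)) * Umm m x = uu e m j := by
  have h := split_U (2 * (e + j)) m (fun _ => 1) continuous_const
  simp only [mul_one] at h
  rw [h]
  unfold uu
  refine Finset.sum_congr rfl fun i _ => ?_
  rw [show 2 * (e + j) + 2 * (i + 1) = 2 * (e + (j + (i + 1))) by ring, ui1]

theorem ui : S_UI := by
  intro e m j
  refine ⟨ui1 e j, ui2 e m j, ?_⟩
  have h := split_U (2 * (e + j)) m (Umm m) (cont_Umm m)
  have e1 : ∀ x : ℝ, x ^ (2 * (e + j)) * Umm m x ^ 2 = x ^ (2 * (e + j)) * Umm m x * Umm m x := by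
    intro x; ring
  simp_rw [e1]
  rw [h]
  unfold aa
  refine Finset.sum_congr rfl fun i _ => ?_
  rw [show 2 * (e + j) + 2 * (i + 1) = 2 * (e + (j + (i + 1))) by ring, ui2]

end Pool.Agent.W12.WQ
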